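import Mathlib
import Pool.Agent.Helper45K9.GR.Par

/-!
# The gcd recursion for prime triples: `f(N) / √N` grows faster than every power of `log N`

`b` is the 3-periodic sequence `2, 6, 0, 2, 6, 0, …`, `Rec N a` says that `a` is the sequence `a_N` of
the problem, and `f(N)` is the least `n ≥ 1` with `a_N(n) = 0`. Write `E(N) = exp ((log log N)² / 100)`.

1. `N - a_N(n) ≤ N / E(N)` for all `n ≤ √N E(N)` and all large `N`.
2. Hence `f(N) > √N E(N)` for all large `N`.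
3. In particular `f(N) > √N (log N)^C` for every `C` and all large `N`.

The trivial bound is `f(N) ≥ (√2 - o(1)) √N`; the starting result `SlowDescent` has `√N (log N)^c`
for `c < 1/4`.

Method. Let `v(n) = n + b(n)`, `g(n)` the gcd subtracted at step `n`, `μ(n) = v(n) / g(n)` and
`U(n) = a(n - 1) / v(n)²`. For two steps `n < n'` with small `μ(n)`, `μ(n')`, which are near to each
other, the number `(n' - n) U(n) + ∑ 1/μ(k)`, where `k` runs over the steps `n ≤ k < n'` with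
`μ(k) ≤ M'`, is equal to a fraction with denominator `μ(n) μ(n')` up to `O(1/M')`. As `U` is monotone,
the steps `n` with the same positions and the same values of `μ` for all these `k` and for `n'` lie in
a short interval, and they lie in one residue class modulo the least common multiple of all the
`μ(k)`. Summation over all possible positions and values shows that for most `n` there are at least
`R` steps `k` with `μ(k) ≤ M'` between `n` and the next step `n'` with `μ(n') ≤ M`, where `M'` is not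
much larger than `M²`. So from one scale to the next the number of the steps with `μ ≤ M` increases by
a factor `R / 4`, with `R` a power of `log N`, and there are about `log log N` scales.
-/

set_option autoImplicit false

namespace Pool.Agent.Results.MP_3f8e47_nt.BeyondPowersOfLog

open Filter Topology Pool.Agent.R701.GD

/-- The 3-periodic sequence `b(1) = 2, b(2) = 6, b(3) = 0, …` of the problem. -/
def b (n : ℕ) : ℕ := if n % 3 = 1 then 2 else if n % 3 = 2 then 6 else 0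

/-- `a` is the sequence `a_N` of the problem: `a(1) = N - 6` and
`a(n) = a(n - 1) - gcd(a(n - 1), n + b(n))` for `n ≥ 2`. -/
def Rec (N : ℕ) (a : ℕ → ℤ) : Prop :=
  a 1 = (N : ℤ) - 6 ∧
    ∀ n : ℕ, 2 ≤ n → a n = a (n - 1) - ((Int.gcd (a (n - 1)) ((n + b n : ℕ) : ℤ) : ℕ) : ℤ)

/-- `E(N) = exp ((log log N)² / 100)` -/
noncomputable def E (N : ℕ) : ℝ := Real.exp (Real.log (Real.log N) ^ 2 / 100)

lemma reduce (N : ℕ) (x : ℝ) (hs : 100 ≤ Nat.sqrt N) (hx2 : 2 ≤ x) (h6x : 6 * x ≤ N)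
    (hDs : ⌈x⌉₊ + 1 ≤ Nat.sqrt N)
    (hcore : ∀ f A, ¬ Dat ⌈2 * x⌉₊ (⌈x⌉₊ + 1) (Nat.sqrt N) N f A)
    (a : ℕ → ℤ) (ha : Rec N a) (n₀ : ℕ) (hn₀1 : 1 ≤ n₀) (hn₀ : (n₀ : ℝ) ≤ Real.sqrt N * x) :
    (N : ℝ) - a n₀ ≤ N / x := by
  obtain ⟨ha1, ha⟩ := ha
  by_contra hcon
  push Not at hcon
  set s := Nat.sqrt N with hsd
  set K := ⌈2 * x⌉₊ with hK
  set D := ⌈x⌉₊ + 1 with hD
  have hN7 : 7 ≤ N := by
    have := Nat.sqrt_le_self N
    omega
  have hNR : (0 : ℝ) < N := by exact_mod_cast (show 0 < N by omega)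
  have hypos : 0 < x := by linarith
  -- the first time below
  classical
  have hex : ∃ n : ℕ, 1 ≤ n ∧ (N : ℝ) / x < (N : ℝ) - a n := ⟨n₀, hn₀1, hcon⟩
  set f := Nat.find hex with hfd
  obtain ⟨hf1, hfy⟩ := Nat.find_spec hex
  rw [← hfd] at hf1 hfy
  have hfn₀ : f ≤ n₀ := Nat.find_min' hex ⟨hn₀1, hcon⟩
  have hbefore : ∀ k, 1 ≤ k → k < f → (N : ℝ) - a k ≤ N / x := by
    intro k hk1 hk2
    have := Nat.find_min hex (m := k) (by rw [← hfd]; exact hk2)
    push Not at this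
    exact this hk1
  have hNy : (N : ℝ) / x ≤ N / 2 := by gcongr
  have hhalf : ∀ k, 1 ≤ k → k < f → (N : ℤ) ≤ 2 * a k := by
    intro k hk1 hk2
    have h1 := (hbefore k hk1 hk2).trans hNy
    have h2 : (N : ℝ) ≤ 2 * a k := by linarith
    exact_mod_cast h2
  have hf2 : 2 ≤ f := by
    by_contra hlt
    have hf : f = 1 := by omega
    rw [hf, ha1] at hfy
    push_cast at hfy
    have : (6 : ℝ) ≤ N / x := by
      rw [le_div_iff₀ hypos]
      exact h6x
    linarith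
  have haf : 0 ≤ a f := by
    have h1 := ha f hf2
    have h2 := hhalf (f - 1) (by omega) (by omega)
    have hpos : 0 < a (f - 1) := by omega
    have := Int.le_of_dvd hpos (Int.gcd_dvd_left (a := a (f - 1)) (b := ((f + b f : ℕ) : ℤ)))
    linarith
  have hnn : ∀ k, 1 ≤ k → k ≤ f → 0 ≤ a k := by
    intro k hk1 hk2
    rcases hk2.eq_or_lt with h | h
    · rw [h]; exact haf
    · have := hhalf k hk1 h
      omega
  have hKpos : 1 ≤ K := Nat.ceil_pos.mpr (by linarith)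
  have hD2 : 2 ≤ D := by
    have : 0 < ⌈x⌉₊ := Nat.ceil_pos.mpr hypos
    omega
  have hyD : x ≤ D := by
    have := Nat.le_ceil x
    rw [hD]
    push_cast
    linarith
  have hsR : (100 : ℝ) ≤ s := by exact_mod_cast hs
  have hfK : f ≤ K * s := by
    have e1 : Real.sqrt N ≤ s + 1 := Real.real_sqrt_le_nat_sqrt_succ
    have e2 : 2 * x ≤ K := Nat.le_ceil _
    have e0 : (f : ℝ) ≤ n₀ := by exact_mod_cast hfn₀
    have e3 : (f : ℝ) ≤ K * s := by
      have hx0 : 0 ≤ x := by linarith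
      calc (f : ℝ) ≤ n₀ := e0
        _ ≤ Real.sqrt N * x := hn₀
        _ ≤ (s + 1) * x := by gcongr
        _ ≤ (2 * s) * x := by gcongr; linarith
        _ = (2 * x) * s := by ring
        _ ≤ K * s := by gcongr
    exact_mod_cast e3
  refine hcore f (fun n => (a (n - 1)).natAbs) ⟨hKpos, hD2, hs, hDs, hf2, hfK, Nat.sqrt_le N, ?_, ?_,
    ?_, ?_, ?_⟩
  · have h1 : N ≤ s * s + s + s := Nat.sqrt_le_add N
    nlinarith
  · show (a (2 - 1)).natAbs + 6 = N
    rw [show 2 - 1 = 1 from rfl, ha1]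
    omega
  · show D * (a (f + 1 - 1)).natAbs + N ≤ D * N
    rw [Nat.add_sub_cancel]
    have h1 : (N : ℝ) ≤ D * ((N : ℝ) - a f) := by
      have e1 : (N : ℝ) / x ≤ (N : ℝ) - a f := hfy.le
      have e2 : (N : ℝ) ≤ x * ((N : ℝ) - a f) := by
        rw [div_le_iff₀ hypos] at e1
        linarith
      have e3 : 0 ≤ (N : ℝ) - a f := le_trans (by positivity) e1
      exact e2.trans (by gcongr)
    have h2 : (((a f).natAbs : ℕ) : ℝ) = a f := by
      rw [Nat.cast_natAbs, abs_of_nonneg haf]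
    have h3 : (D : ℝ) * ((a f).natAbs : ℕ) + N ≤ D * N := by
      rw [h2]
      linarith
    exact_mod_cast h3
  · intro n hn2 hnf
    show (a (n + 1 - 1)).natAbs + Nat.gcd (a (n - 1)).natAbs (v n) = (a (n - 1)).natAbs
    rw [Nat.add_sub_cancel]
    have h1 := ha n hn2
    have h2 := hnn n (by omega) hnf
    have h3 := hnn (n - 1) (by omega) (by omega)
    have h4 : Int.gcd (a (n - 1)) ((n + b n : ℕ) : ℤ) = Nat.gcd (a (n - 1)).natAbs (v n) := rfl
    rw [h4] at h1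
    omega
  · intro n hn2 hnf
    show N ≤ 2 * (a (n - 1)).natAbs
    have := hhalf (n - 1) (by omega) (by omega)
    omega

lemma main : ∃ N₀ : ℕ, ∀ N : ℕ, N₀ ≤ N → (0 < N ∧ 2 ≤ E N) ∧ ∀ a : ℕ → ℤ, Rec N a →
    ∀ n : ℕ, 1 ≤ n → (n : ℝ) ≤ Real.sqrt N * E N → (N : ℝ) - a n ≤ N / E N := by
  obtain ⟨N₀, hN₀⟩ := Pool.Agent.Helper45K9.GR.log_log_large 300
  refine ⟨N₀, fun N hN => ?_⟩
  obtain ⟨h1, h2, h3, h4, h5⟩ := Pool.Agent.Helper45K9.GR.params N (hN₀ N hN) (E N) rfl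
  refine ⟨⟨?_, h2⟩, fun a ha n hn1 hn => reduce N (E N) h1 h2 h3 h4 h5 a ha n hn1 hn⟩
  have := Nat.sqrt_le_self N
  omega

lemma lower : ∃ N₀ : ℕ, ∀ N : ℕ, N₀ ≤ N → ∀ a : ℕ → ℤ, Rec N a →
    ∀ f : ℕ, IsLeast {n : ℕ | 1 ≤ n ∧ a n = 0} f → Real.sqrt N * E N < f := by
  obtain ⟨N₀, hN₀⟩ := main
  refine ⟨N₀, fun N hN a ha f hf => ?_⟩
  obtain ⟨⟨hN0, hE⟩, h2⟩ := hN₀ N hN
  obtain ⟨⟨hf1, haf⟩, -⟩ := hf
  by_contra hcon
  push Not at hcon
  have h4 := h2 a ha f hf1 hcon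
  rw [haf] at h4
  have hNR : (0 : ℝ) < N := by exact_mod_cast hN0
  have h6 : (N : ℝ) / E N < N := div_lt_self hNR (by linarith)
  push_cast at h4
  linarith

/-- (1) For all large `N` the recursion satisfies `N - a_N(n) ≤ N / E(N)` for all `n ≤ √N E(N)`, where
`E(N) = exp ((log log N)² / 100)`. (2) `f(N) > √N E(N)` for all large `N`. (3) `f(N) > √N (log N)^C`
for every `C` and all large `N`. -/
theorem result :
    (∃ N₀ : ℕ, ∀ N : ℕ, N₀ ≤ N → ∀ a : ℕ → ℤ, Rec N a →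
      ∀ n : ℕ, 1 ≤ n → (n : ℝ) ≤ Real.sqrt N * E N → (N : ℝ) - a n ≤ N / E N) ∧
    (∃ N₀ : ℕ, ∀ N : ℕ, N₀ ≤ N → ∀ a : ℕ → ℤ, Rec N a →
      ∀ f : ℕ, IsLeast {n : ℕ | 1 ≤ n ∧ a n = 0} f → Real.sqrt N * E N < f) ∧
    (∀ C : ℝ, ∃ N₀ : ℕ, ∀ N : ℕ, N₀ ≤ N → ∀ a : ℕ → ℤ, Rec N a →
      ∀ f : ℕ, IsLeast {n : ℕ | 1 ≤ n ∧ a n = 0} f → Real.sqrt N * (Real.log N) ^ C < f) := by
  refine ⟨?_, lower, ?_⟩
  · obtain ⟨N₀, hN₀⟩ := main
    exact ⟨N₀, fun N hN => (hN₀ N hN).2⟩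
  · intro C
    obtain ⟨N₁, hN₁⟩ := lower
    have hlog : Tendsto (fun N : ℕ => Real.log (Real.log N)) atTop atTop :=
      Real.tendsto_log_atTop.comp (Real.tendsto_log_atTop.comp tendsto_natCast_atTop_atTop)
    have hlog1 : Tendsto (fun N : ℕ => Real.log N) atTop atTop :=
      Real.tendsto_log_atTop.comp tendsto_natCast_atTop_atTop
    obtain ⟨N₂, hN₂⟩ := eventually_atTop.mp ((hlog.eventually_ge_atTop (max (100 * C) 0)).and
      (hlog1.eventually_ge_atTop 1))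
    refine ⟨max N₁ N₂, fun N hN a ha f hf => ?_⟩
    have h1 := hN₁ N (le_trans (le_max_left _ _) hN) a ha f hf
    obtain ⟨h2, h3⟩ := hN₂ N (le_trans (le_max_right _ _) hN)
    refine lt_of_le_of_lt ?_ h1
    apply mul_le_mul_of_nonneg_left _ (Real.sqrt_nonneg _)
    have hl0 : 0 ≤ Real.log (Real.log N) := (le_max_right _ _).trans h2
    have hlC : 100 * C ≤ Real.log (Real.log N) := (le_max_left _ _).trans h2
    rw [Real.rpow_def_of_pos (by linarith), E]
    apply Real.exp_le_exp.2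
    nlinarith

end Pool.Agent.Results.MP_3f8e47_nt.BeyondPowersOfLog
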