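import Pool.Agent.Helper82K9.GR.Gr3

/-!
# The gcd recursion for prime triples: small values of the defect `N - f(N)`

`b` is the 3-periodic sequence `2, 6, 0, ...`, `a N` the recursion `a_N` of the problem and `f N = f(N)` its least zero.
Let `H ≤ (log X) / 100`. We show that at most `C (log H) ^ C X / (log X) ^ 3` of the `N ≤ X` satisfy `N - f(N) ≤ H`; in
the starting file `TypicalDefect` the factor `(log H) ^ C` is `H`. As `N - f(N) ≤ 5` if `N - 4, N - 2, N + 2` are primes,
this is the expected order of magnitude, up to the factor `(log H) ^ C`.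

Proof. If `m < n` are two consecutive jumps (steps with a gcd `> 1`), the second one by `g`, then `n - m ≤ 3 g`, because
for a prime `p` dividing `g` there would be a jump at `n - 3 p` otherwise. So the last jump comes before `6 (N - f(N))`,
and if `N - f(N) ≤ H` then `f(N) = a_N(6 H) + 6 H`. The difference of `N` and this number depends only on the residue
class of `N` modulo the least common multiple `M` of the integers up to `6 H + 6`, which is at most `√X`. By the starting
result `LongLife` the numbers `f(N) + 1, f(N) + 3, f(N) + 7` are prime, and in every class modulo `M` an upper bound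
sieve (starting file `Pool.Agent.Y949.DK.SV`) shows that this happens for at most `C (log H) ^ C (X / M) / (log X) ^ 3`
of the `N`.
-/

set_option autoImplicit false

namespace Pool.Agent.Results.MP_3f8e47_nt.SmallDefects

open Finset Filter Topology

/-- The 3-periodic sequence `2, 6, 0, 2, 6, 0, …` (indexed from 1). -/
def b (n : ℕ) : ℕ := if n % 3 = 1 then 2 else if n % 3 = 2 then 6 else 0

/-- the recursion `a_N`: `a_N(1) = N - 6`, `a_N(n) = a_N(n-1) - gcd(a_N(n-1), n + b(n))` for
`n ≥ 2` (and `a_N(0) = 0`, not used) -/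
noncomputable def a (N : ℕ) : ℕ → ℤ
  | 0 => 0
  | 1 => (N : ℤ) - 6
  | (n + 2) => a N (n + 1) - ((Int.gcd (a N (n + 1)) ((n + 2 + b (n + 2) : ℕ) : ℤ) : ℕ) : ℤ)

/-- `f(N)`: the least `n ≥ 1` with `a_N(n) = 0` -/
noncomputable def f (N : ℕ) : ℕ := sInf {n : ℕ | 1 ≤ n ∧ a N n = 0}

lemma a_eq (N n : ℕ) : a N n = Pool.Agent.R105.GD.aa N n := by
  induction n using Nat.strong_induction_on with
  | _ n ih =>
    match n with
    | 0 => rw [a, Pool.Agent.R105.GD.aa]
    | 1 => rw [a, Pool.Agent.R105.GD.aa]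
    | n + 2 =>
      rw [a, Pool.Agent.R105.GD.aa, ih (n + 1) (by omega)]
      rfl

lemma f_eq (N : ℕ) : f N = Pool.Agent.R105.GD.ff N := by
  unfold f Pool.Agent.R105.GD.ff
  simp only [a_eq]

open Classical in
/-- There is a constant `C` such that for all large `X`: (1) for every `3 ≤ H ≤ (log X) / 100` at most
`C (log H) ^ C X / (log X) ^ 3` of the `N ≤ X` satisfy `N - f(N) ≤ H`; (2) in particular at most
`C (log log X) ^ C X / (log X) ^ 3` of the `N ≤ X` satisfy `N - f(N) ≤ (log X) / 100`. -/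
theorem result : ∃ C : ℝ, ∀ᶠ X : ℕ in atTop,
    (∀ H : ℕ, 3 ≤ H → (H : ℝ) ≤ Real.log X / 100 →
      (((Icc 6 X).filter (fun N : ℕ => (N : ℝ) - f N ≤ H)).card : ℝ) ≤
        C * Real.log H ^ C * (X / Real.log X ^ 3)) ∧
    (((Icc 6 X).filter (fun N : ℕ => (N : ℝ) - f N ≤ Real.log X / 100)).card : ℝ) ≤
      C * Real.log (Real.log X) ^ C * (X / Real.log X ^ 3) := by
  obtain ⟨C, hC1, hC⟩ := Pool.Agent.Helper82K9.GR.main
  have hlog : Tendsto (fun n : ℕ => Real.log n) atTop atTop := Real.tendsto_log_atTop.comp tendsto_natCast_atTop_atTop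
  refine ⟨C, ?_⟩
  filter_upwards [hC, hlog.eventually_ge_atTop 400] with X hX hL
  set L := Real.log X with hLdef
  have key : ∀ H : ℕ, 3 ≤ H → (H : ℝ) ≤ L / 100 →
      (((Icc 6 X).filter (fun N : ℕ => (N : ℝ) - f N ≤ H)).card : ℝ) ≤ C * Real.log H ^ C * (X / L ^ 3) := by
    intro H hH hHL
    refine le_trans ?_ (hX H hH hHL)
    rw [Nat.cast_le]
    apply card_le_card
    intro N hN
    rw [mem_filter] at hN ⊢
    refine ⟨hN.1, ?_⟩
    rw [f_eq] at hN
    have h1 : (N : ℝ) ≤ (Pool.Agent.R105.GD.ff N : ℝ) + H := by linarith [hN.2]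
    exact_mod_cast h1
  refine ⟨key, ?_⟩
  set H := ⌊L / 100⌋₊ with hH
  have hL0 : 0 ≤ L / 100 := by linarith
  have hH3 : 3 ≤ H := Nat.le_floor (by push_cast; linarith)
  have hHL : (H : ℝ) ≤ L / 100 := Nat.floor_le hL0
  have hH3r : (3 : ℝ) ≤ H := by exact_mod_cast hH3
  have h1 := key H hH3 hHL
  have hXL : 0 ≤ (X : ℝ) / L ^ 3 := by positivity
  have hlH0 : 0 ≤ Real.log H := Real.log_natCast_nonneg H
  have hlH : Real.log H ≤ Real.log L := Real.log_le_log (by linarith) (by linarith)
  have h2 : Real.log H ^ C ≤ Real.log L ^ C := Real.rpow_le_rpow hlH0 hlH (by linarith)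
  refine le_trans ?_ (h1.trans ?_)
  · rw [Nat.cast_le]
    apply card_le_card
    intro N hN
    rw [mem_filter] at hN ⊢
    refine ⟨hN.1, ?_⟩
    have h3 : ((N : ℤ) - f N : ℤ) ≤ ⌊L / 100⌋ := by
      rw [Int.le_floor]
      push_cast
      exact hN.2
    have h4 : ((⌊L / 100⌋₊ : ℕ) : ℤ) = ⌊L / 100⌋ := by
      rw [Int.natCast_floor_eq_floor hL0]
    rw [← h4] at h3
    have h5 : (((N : ℤ) - f N : ℤ) : ℝ) ≤ ((H : ℤ) : ℝ) := by exact_mod_cast h3
    push_cast at h5
    exact h5
  · apply mul_le_mul_of_nonneg_right _ hXL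
    exact mul_le_mul_of_nonneg_left h2 (by linarith)

end Pool.Agent.Results.MP_3f8e47_nt.SmallDefects
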